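import Mathlib

set_option autoImplicit false

namespace Pool.Agent.H.MP_a5aa7c_an
open Filter Topology MeasureTheory ComplexConjugate InnerProductSpace Module AddCircle

/-- lurking isometry -/
lemma lurk {H G : Type} [AddCommGroup H] [Module ℂ H] [NormedAddCommGroup G] [InnerProductSpace ℂ G]
    [FiniteDimensional ℂ G] (X Y : H →ₗ[ℂ] G) (h : ∀ v, ‖X v‖ = ‖Y v‖) : ∃ V : G ≃ₗᵢ[ℂ] G, ∀ v, V (Y v) = X v := by
  obtain ⟨σ, hσ⟩ := Y.rangeRestrict.exists_rightInverse_of_surjective Y.range_rangeRestrict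
  have e : ∀ y : LinearMap.range Y, Y (σ y) = y := fun y => congrArg Subtype.val (LinearMap.congr_fun hσ y)
  let L : LinearMap.range Y →ₗᵢ[ℂ] G := ⟨X ∘ₗ σ, fun y => by rw [LinearMap.comp_apply, h, e]; rfl⟩
  refine ⟨L.extend.toLinearIsometryEquiv rfl, fun v => ?_⟩
  have h1 := L.extend_apply ⟨Y v, v, rfl⟩
  have h2 : X (σ ⟨Y v, v, rfl⟩ - v) = 0 := by rw [← norm_eq_zero, h, map_sub, e, sub_self, norm_zero]
  rw [map_sub, sub_eq_zero] at h2
  exact h1.trans h2

abbrev C := AddCircle (1 : ℝ)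

section
variable {F F' : Type} [NormedAddCommGroup F] [NormedSpace ℂ F] [CompleteSpace F]
  [NormedAddCommGroup F'] [NormedSpace ℂ F'] [CompleteSpace F']

lemma nf (m : ℤ) (t : C) : ‖fourier m t‖ = 1 := Circle.norm_coe _

omit [CompleteSpace F] in
lemma int_smul {g : C → F} (hg : Integrable g haarAddCircle) {c : C → ℂ} (hc : Continuous c) :
    Integrable (fun t => c t • g t) haarAddCircle := by
  obtain ⟨K, hK⟩ := (isCompact_univ.image hc).isBounded.exists_norm_le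
  exact hg.bdd_smul K hc.aestronglyMeasurable (Eventually.of_forall fun t => hK _ ⟨t, trivial, rfl⟩)

lemma fc_clm (L : F →L[ℂ] F') {g : C → F} (hg : Integrable g haarAddCircle) (m : ℤ) :
    fourierCoeff (fun t => L (g t)) m = L (fourierCoeff g m) := by
  unfold fourierCoeff
  rw [← L.integral_comp_comm (int_smul hg (fourier (-m)).continuous)]
  simp only [map_smul]

omit [CompleteSpace F] in
lemma fc_add {f g : C → F} (hf : Integrable f haarAddCircle) (hg : Integrable g haarAddCircle) (m : ℤ) :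
    fourierCoeff (fun t => f t + g t) m = fourierCoeff f m + fourierCoeff g m :=
  congrFun (fourierCoeff.add hf hg) m

omit [CompleteSpace F] in
lemma fc_sub {f g : C → F} (hf : Integrable f haarAddCircle) (hg : Integrable g haarAddCircle) (m : ℤ) :
    fourierCoeff (fun t => f t - g t) m = fourierCoeff f m - fourierCoeff g m := by
  unfold fourierCoeff
  rw [← integral_sub (int_smul hf (fourier (-m)).continuous) (int_smul hg (fourier (-m)).continuous)]
  simp only [smul_sub]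
end

lemma fc_shift (g : C → ℂ) (m : ℤ) : fourierCoeff (fun t => fourier 1 t * g t) (m + 1) = fourierCoeff g m := by
  unfold fourierCoeff
  refine integral_congr_ae (Eventually.of_forall fun t => ?_)
  simp only [smul_eq_mul]
  rw [← mul_assoc, ← fourier_add]; congr 3; ring

lemma fc_bd (g : C → ℂ) (m : ℤ) : ‖fourierCoeff g m‖ ≤ ∫ t, ‖g t‖ ∂haarAddCircle := by
  refine (norm_integral_le_integral_norm _).trans (le_of_eq ?_)
  simp only [norm_smul, nf, one_mul]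

noncomputable def bl (a z : ℂ) : ℂ := (z - a) / (1 - conj a * z)

lemma den {a z : ℂ} (ha : ‖a‖ < 1) (hz : ‖z‖ ≤ 1) : 1 - conj a * z ≠ 0 := fun h => by
  have : ‖conj a * z‖ < 1 := by
    rw [norm_mul, Complex.norm_conj]; exact mul_lt_one_of_nonneg_of_lt_one_left (norm_nonneg _) ha hz
  rw [← sub_eq_zero.1 h, norm_one] at this
  exact lt_irrefl _ this

lemma bl_cont {a : ℂ} (ha : ‖a‖ < 1) : Continuous fun t : C => bl a (fourier 1 t) :=
  Continuous.div (by fun_prop) (by fun_prop) fun t => den ha (nf 1 t).le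

lemma bl_norm {a z : ℂ} (ha : ‖a‖ < 1) (hz : ‖z‖ = 1) : ‖bl a z‖ = 1 := by
  have e : 1 - conj a * z = z * conj (z - a) := by
    rw [map_sub, mul_sub, Complex.mul_conj', hz]; simp [mul_comm]
  rw [bl, norm_div, div_eq_one_iff_eq (norm_ne_zero_iff.2 (den ha hz.le)), e, norm_mul, hz, one_mul, Complex.norm_conj]

lemma fc_bl {g : C → ℂ} (hg : Integrable g haarAddCircle) {a : ℂ} (ha : ‖a‖ < 1) {y : ℕ → ℂ}
    (hy : Tendsto y atTop (𝓝 0)) (h : ∀ i : ℕ, fourierCoeff g (-(i + 1)) = y i - conj a * y (i + 1)) (i : ℕ) :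
    fourierCoeff (fun t => bl a (fourier 1 t) * g t) (-(i + 1)) = y (i + 1) - a * y i := by
  have d := fun t : C => den ha (nf 1 t).le
  set w : C → ℂ := fun t => (1 - conj a * fourier 1 t)⁻¹ * g t with hw
  have iw : Integrable w haarAddCircle := int_smul hg (Continuous.inv₀ (by fun_prop) d)
  have iz : Integrable (fun t => fourier 1 t * w t) haarAddCircle := int_smul iw (fourier 1).continuous
  have sh : ∀ j : ℕ, fourierCoeff (fun t => fourier 1 t * w t) (-(j + 1)) = fourierCoeff w (-((j + 1 : ℕ) + 1)) := fun j => by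
    rw [← fc_shift w]; congr 1
  have e1 : ∀ j : ℕ, fourierCoeff w (-(j + 1)) - y j = conj a * (fourierCoeff w (-((j + 1 : ℕ) + 1)) - y (j + 1)) := by
    intro j
    have : g = fun t => w t - conj a * (fourier 1 t * w t) := funext fun t => by
      have := d t
      simp only [hw]; field_simp
    have h1 := h j
    rw [this, fc_sub iw (iz.const_mul _), fourierCoeff.const_mul, sh] at h1
    linear_combination h1
  have e2 : ∀ j : ℕ, fourierCoeff w (-(j + 1)) = y j := by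
    intro j
    have e3 : ∀ k : ℕ, fourierCoeff w (-(j + 1)) - y j =
        conj a ^ k * fourierCoeff w (-((j + k : ℕ) + 1)) - conj a ^ k * y (j + k) := fun k => by
      induction k with
      | zero => simp
      | succ k ih => rw [ih, ← mul_sub, e1, pow_succ, ← add_assoc]; ring
    have t0 : Tendsto (fun k : ℕ => conj a ^ k) atTop (𝓝 0) :=
      tendsto_pow_atTop_nhds_zero_of_norm_lt_one (by rwa [Complex.norm_conj])
    have t1 : Tendsto (fun k : ℕ => conj a ^ k * fourierCoeff w (-((j + k : ℕ) + 1))) atTop (𝓝 0) :=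
      t0.zero_mul_isBoundedUnder_le ⟨_, eventually_map.2 (Eventually.of_forall fun k => fc_bd w _)⟩
    have t2 := t1.sub (t0.mul (hy.comp (tendsto_atTop_mono (fun k => Nat.le_add_left k j) tendsto_id)))
    simp only [Function.comp_def, id, ← e3, mul_zero, sub_zero] at t2
    exact sub_eq_zero.1 (tendsto_nhds_unique tendsto_const_nhds t2)
  have : (fun t => bl a (fourier 1 t) * g t) = fun t => fourier 1 t * w t - a * w t := funext fun t => by
    simp only [hw, bl]; ring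
  rw [this, fc_sub iz (iw.const_mul _), fourierCoeff.const_mul, sh, e2, e2]

lemma nrm {E : Type} [NormedAddCommGroup E] [InnerProductSpace ℂ E] {u : E} (hu : ‖u‖ = 1) (w : E) (c : ℂ) :
    ‖w - ⟪u, w⟫_ℂ • u + c • u‖ ^ 2 = ‖w‖ ^ 2 - ‖⟪u, w⟫_ℂ‖ ^ 2 + ‖c‖ ^ 2 := by
  have uu : ⟪u, u⟫_ℂ = 1 := by rw [inner_self_eq_norm_sq_to_K, hu]; simp
  have o : ⟪w - ⟪u, w⟫_ℂ • u, u⟫_ℂ = 0 := by rw [inner_eq_zero_symm, inner_sub_right, inner_smul_right, uu]; simp
  have h1 : ∀ c : ℂ, ‖w - ⟪u, w⟫_ℂ • u + c • u‖ ^ 2 = ‖w - ⟪u, w⟫_ℂ • u‖ ^ 2 + ‖c‖ ^ 2 := fun c => by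
    rw [norm_add_sq (𝕜 := ℂ), inner_smul_right, o, norm_smul, hu]; simp
  have h2 := h1 ⟪u, w⟫_ℂ
  rw [sub_add_cancel] at h2
  rw [h1]; linarith

variable {F : Type} [NormedAddCommGroup F] [InnerProductSpace ℂ F] [FiniteDimensional ℂ F] [CompleteSpace F]

noncomputable def fac (p : ℂ × F) (z : ℂ) : F →L[ℂ] F := bl p.1 z • rankOne ℂ p.2 p.2 + (1 - rankOne ℂ p.2 p.2)

noncomputable def BP (ν : F →L[ℂ] F) (l : List (ℂ × F)) (z : ℂ) : F →L[ℂ] F := ν * (l.map fun p => fac p z).prod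

theorem core {H : Type} [AddCommGroup H] [Module ℂ H] (S : H →ₗ[ℂ] H) (A : Set H) (γ : H →ₗ[ℂ] F) (r : ℕ) :
    ∀ (E : Type) [NormedAddCommGroup E] [InnerProductSpace ℂ E] [FiniteDimensional ℂ E], finrank ℂ E = r →
    ∀ (ζ : H →ₗ[ℂ] E) (β : H →ₗ[ℂ] F), (∀ h, ‖ζ h‖ ^ 2 + ‖γ h‖ ^ 2 = ‖ζ (S h)‖ ^ 2 + ‖β h‖ ^ 2) →
    (∀ x, (∀ h ∈ A, ⟪x, ζ h⟫_ℂ = 0) → x = 0) →
    (∀ x, ∀ h ∈ A, Tendsto (fun k => ⟪x, ζ ((S ^ k) h)⟫_ℂ) atTop (𝓝 0)) →
    ∃ ν ∈ unitary (F →L[ℂ] F), ∃ l : List (ℂ × F), l.length = r ∧ (∀ p ∈ l, ‖p.1‖ < 1 ∧ ‖p.2‖ = 1) ∧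
      ∀ h ∈ A, ∀ G : C → F, Integrable G haarAddCircle → (∀ i : ℕ, β ((S ^ i) h) = fourierCoeff G (-(i + 1))) →
        ∀ i : ℕ, γ ((S ^ i) h) = fourierCoeff (fun t => BP ν l (fourier 1 t) (G t)) (-(i + 1)) := by
  induction r with
  | zero =>
    intro E _ _ _ hE ζ β hn _ _
    haveI := finrank_zero_iff.1 hE
    obtain ⟨V, hV⟩ := lurk γ β fun v => by
      have := hn v
      rw [Subsingleton.elim (ζ v) 0, Subsingleton.elim (ζ (S v)) 0] at this
      exact (sq_eq_sq₀ (norm_nonneg _) (norm_nonneg _)).1 (by linarith)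
    refine ⟨_, (Unitary.linearIsometryEquiv.symm V).2, [], rfl, by simp, fun h _ G hG e i => ?_⟩
    simp only [BP, List.map_nil, List.prod_nil, mul_one]
    rw [fc_clm _ hG, ← e, ← hV]; rfl
  | succ r ih =>
    intro E _ _ _ hE ζ β hn nd dec
    haveI : Nontrivial E := (finrank_pos_iff (R := ℂ)).1 (by omega)
    obtain ⟨V, hV⟩ := lurk (G := WithLp 2 (E × F)) ((WithLp.linearEquiv 2 ℂ (E × F)).symm.toLinearMap ∘ₗ ζ.prod γ)
      ((WithLp.linearEquiv 2 ℂ (E × F)).symm.toLinearMap ∘ₗ (ζ ∘ₗ S).prod β) fun v => by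
        rw [← sq_eq_sq₀ (norm_nonneg _) (norm_nonneg _), WithLp.prod_norm_sq_eq_of_L2, WithLp.prod_norm_sq_eq_of_L2]
        exact hn v
    let a : Module.End ℂ E := LinearMap.fst ℂ E F ∘ₗ (WithLp.linearEquiv 2 ℂ (E × F)).toLinearMap ∘ₗ
      V.symm.toLinearEquiv.toLinearMap ∘ₗ (WithLp.linearEquiv 2 ℂ (E × F)).symm.toLinearMap ∘ₗ LinearMap.inl ℂ E F
    obtain ⟨α, hα⟩ := Module.End.exists_eigenvalue a
    obtain ⟨x0, hx0⟩ := hα.exists_hasEigenvector
    set x : E := ((‖x0‖⁻¹ : ℝ) : ℂ) • x0 with hx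
    have nx : ‖x‖ = 1 := by
      rw [hx, norm_smul, Complex.norm_real, norm_inv, norm_norm, inv_mul_cancel₀ (norm_ne_zero_iff.2 hx0.2)]
    have ax : a x = α • x := by rw [hx, map_smul, hx0.apply_eq_smul, smul_comm]
    set q := V.symm (WithLp.toLp 2 (x, 0)) with hq
    have q1 : q.fst = α • x := ax
    set v := q.snd
    have nv : ‖v‖ ^ 2 = 1 - ‖α‖ ^ 2 := by
      have := WithLp.prod_norm_sq_eq_of_L2 q
      rw [q1, norm_smul, nx, hq, V.symm.norm_map, WithLp.prod_norm_sq_eq_of_L2] at this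
      simp [nx] at this
      linarith
    have ey : ∀ h, ⟪x, ζ h⟫_ℂ = conj α * ⟪x, ζ (S h)⟫_ℂ + ⟪v, β h⟫_ℂ := fun h => by
      have h1 := V.inner_map_map q (WithLp.toLp 2 (ζ (S h), β h))
      have h2 : V (WithLp.toLp 2 (ζ (S h), β h)) = WithLp.toLp 2 (ζ h, γ h) := hV h
      rw [h2, hq, V.apply_symm_apply, ← hq, WithLp.prod_inner_apply, WithLp.prod_inner_apply] at h1
      simpa [q1, inner_smul_left] using h1
    have v0 : v ≠ 0 := fun h0 => by
      rw [h0, norm_zero] at nv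
      have a1 : ‖α‖ = 1 := (sq_eq_sq₀ (norm_nonneg _) zero_le_one).1 (by linarith)
      have : x = 0 := nd x fun h hh => by
        have e : ∀ k, ‖⟪x, ζ ((S ^ k) h)⟫_ℂ‖ = ‖⟪x, ζ h⟫_ℂ‖ := fun k => by
          induction k with
          | zero => rfl
          | succ k ih => rw [← ih, ey ((S ^ k) h), h0, pow_succ']; simp [a1]
        have t := (dec x h hh).norm
        simp only [e, norm_zero] at t
        exact norm_eq_zero.1 (tendsto_nhds_unique tendsto_const_nhds t)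
      simp [this] at nx
    have vp := norm_pos_iff.2 v0
    have al : ‖α‖ < 1 := (sq_lt_one_iff₀ (norm_nonneg _)).1 (by nlinarith [pow_pos vp 2])
    set s : ℝ := ‖v‖⁻¹ with hs
    set u : F := (s : ℂ) • v with hu
    have nu : ‖u‖ = 1 := by rw [hu, hs, norm_smul, Complex.norm_real, norm_inv, norm_norm, inv_mul_cancel₀ vp.ne']
    have eu : ∀ h, ⟪u, β h⟫_ℂ = s * ⟪x, ζ h⟫_ℂ - conj α * (s * ⟪x, ζ (S h)⟫_ℂ) := fun h => by
      rw [hu, inner_smul_left, ey h, Complex.conj_ofReal]; ring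
    have xx : ⟪x, x⟫_ℂ = 1 := by rw [inner_self_eq_norm_sq_to_K, nx]; simp
    let y : H →ₗ[ℂ] ℂ := (innerSL ℂ x).toLinearMap ∘ₗ ζ
    let ζ1 : H →ₗ[ℂ] (ℂ ∙ x)ᗮ := (ζ - y.smulRight x).codRestrict _ fun h => by
      rw [Submodule.mem_orthogonal_singleton_iff_inner_right]
      simp [y, inner_sub_right, inner_smul_right, nx]
    have e1 : ∀ h, (ζ1 h : E) = ζ h - ⟪x, ζ h⟫_ℂ • x := fun h => rfl
    have n1 : ∀ h, ‖ζ1 h‖ ^ 2 = ‖ζ h‖ ^ 2 - ‖⟪x, ζ h⟫_ℂ‖ ^ 2 := fun h => by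
      have := nrm nx (ζ h) 0
      rw [zero_smul, add_zero, ← e1] at this
      simpa using this
    have i1 : ∀ (w : (ℂ ∙ x)ᗮ) h, ⟪w, ζ1 h⟫_ℂ = ⟪(w : E), ζ h⟫_ℂ := fun w h => by
      rw [Submodule.coe_inner, e1, inner_sub_right, inner_smul_right,
        Submodule.mem_orthogonal_singleton_iff_inner_left.1 w.2]; simp
    let β1 : H →ₗ[ℂ] F := β - ((innerSL ℂ u).toLinearMap ∘ₗ β).smulRight u +
      ((s : ℂ) • (y ∘ₗ S) - α • (s : ℂ) • y).smulRight u
    have e2 : ∀ h, β1 h = β h - ⟪u, β h⟫_ℂ • u + (s * ⟪x, ζ (S h)⟫_ℂ - α * (s * ⟪x, ζ h⟫_ℂ)) • u := fun h => rfl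
    haveI : Fact (finrank ℂ E = r + 1) := ⟨hE⟩
    obtain ⟨ν, hν, l, hl, hp, hc⟩ := ih (ℂ ∙ x)ᗮ (Submodule.finrank_orthogonal_span_singleton (by
      rintro h; simp [h] at nx)) ζ1 β1 (fun h => by
        rw [n1, n1, e2, nrm nu, eu]
        have h1 := hn h
        have h2 : s ^ 2 * (1 - ‖α‖ ^ 2) = 1 := by rw [← nv, hs]; field_simp
        generalize ⟪x, ζ h⟫_ℂ = p at *
        generalize ⟪x, ζ (S h)⟫_ℂ = p' at *
        have h3 : ‖s * p - conj α * (s * p')‖ ^ 2 - ‖s * p' - α * (s * p)‖ ^ 2 =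
            s ^ 2 * (1 - ‖α‖ ^ 2) * (‖p‖ ^ 2 - ‖p'‖ ^ 2) := by
          simp only [Complex.sq_norm, Complex.normSq_apply]; simp; ring
        rw [h2] at h3
        linarith)
      (fun w hw => Subtype.ext (nd w fun h hh => by rw [← i1, hw h hh])) fun w h hh => by
        simp only [i1]; exact dec w h hh
    refine ⟨ν, hν, l ++ [(α, u)], by simp [hl], fun p hp' => ?_, fun h hh G hG e i => ?_⟩
    · rcases List.mem_append.1 hp' with h | h
      · exact hp p h
      · rw [List.mem_singleton.1 h]; exact ⟨al, nu⟩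
    have ig : Integrable (fun t => ⟪u, G t⟫_ℂ) haarAddCircle := hG.const_inner u
    have ib : Integrable (fun t => bl α (fourier 1 t) * ⟪u, G t⟫_ℂ) haarAddCircle := int_smul ig (bl_cont al)
    have fg : ∀ m, fourierCoeff (fun t => ⟪u, G t⟫_ℂ) m = ⟪u, fourierCoeff G m⟫_ℂ := fc_clm (innerSL ℂ u) hG
    have fs : ∀ g : C → ℂ, Integrable g haarAddCircle → ∀ m, fourierCoeff (fun t => g t • u) m = fourierCoeff g m • u :=
      fun g hg => fc_clm (ContinuousLinearMap.toSpanSingleton ℂ u) hg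
    have j1 : Integrable (fun t => G t - ⟪u, G t⟫_ℂ • u) haarAddCircle := hG.sub (ig.smul_const u)
    rw [hc h hh (fun t => G t - ⟪u, G t⟫_ℂ • u + (bl α (fourier 1 t) * ⟪u, G t⟫_ℂ) • u) (j1.add (ib.smul_const u))
      (fun i => ?_) i]
    · congr 1
      funext t
      simp only [BP, fac, List.map_append, List.prod_append, List.map_cons, List.map_nil, List.prod_cons, List.prod_nil,
        mul_one, ContinuousLinearMap.mul_apply]
      congr 2
      simp [smul_smul, add_comm]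
    · rw [fc_add j1 (ib.smul_const u), fc_sub hG (ig.smul_const u), fs _ ig, fs _ ib, fg, ← e, e2,
        fc_bl ig al (y := fun i => s * ⟪x, ζ ((S ^ i) h)⟫_ℂ) (by simpa using (dec x h hh).const_mul (s : ℂ))
          (fun i => by rw [fg, ← e, eu, pow_succ']; rfl), pow_succ']
      rfl

end Pool.Agent.H.MP_a5aa7c_an
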