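import Pool.Agent.H.MP_a5aa7c_an.A

set_option autoImplicit false

namespace Pool.Agent.H.MP_a5aa7c_an
open Filter Topology MeasureTheory ComplexConjugate InnerProductSpace Module AddCircle ContinuousLinearMap

lemma root {V : Type} [NormedAddCommGroup V] [InnerProductSpace ℂ V] [CompleteSpace V] {D : V →L[ℂ] V}
    (hD : D.IsPositive) (hf : FiniteDimensional ℂ D.range) : ∃ R : V →L[ℂ] V, (∀ x y, ⟪R x, y⟫_ℂ = ⟪x, R y⟫_ℂ) ∧
      (∀ h, ‖R h‖ ^ 2 = (⟪h, D h⟫_ℂ).re) ∧ FiniteDimensional ℂ R.range ∧ finrank ℂ R.range = finrank ℂ D.range := by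
  have h0 := (nonneg_iff_isPositive D).2 hD
  set R := CFC.sqrt D
  have sa : ∀ x y, ⟪R x, y⟫_ℂ = ⟪x, R y⟫_ℂ := ((nonneg_iff_isPositive R).1 (CFC.sqrt_nonneg D)).isSymmetric
  have e : ∀ h, R (R h) = D h := fun h => congrArg (· h) (CFC.sqrt_mul_sqrt_self D h0)
  have n : ∀ h, ‖R h‖ ^ 2 = (⟪h, D h⟫_ℂ).re := fun h => by
    rw [← e, ← sa, inner_self_eq_norm_sq_to_K]; norm_cast
  have k : R.ker = D.ker := Submodule.ext fun h => by
    simp only [LinearMap.mem_ker, coe_coe]
    refine ⟨fun h1 => by rw [← e, h1, map_zero], fun h1 => ?_⟩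
    have := n h
    rwa [h1, inner_zero_right, Complex.zero_re, pow_eq_zero_iff two_ne_zero, norm_eq_zero] at this
  let q : D.range ≃ₗ[ℂ] R.range := (D.toLinearMap.quotKerEquivRange.symm.trans (Submodule.quotEquivOfEq _ _ k.symm)).trans
    R.toLinearMap.quotKerEquivRange
  exact ⟨R, sa, n, q.finiteDimensional, q.finrank_eq.symm⟩

variable {F : Type} [NormedAddCommGroup F] [InnerProductSpace ℂ F]

noncomputable abbrev H (F : Type) [NormedAddCommGroup F] := lp (fun _ : ℕ => F) 2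

omit [InnerProductSpace ℂ F] in
lemma n2 (x : H F) : HasSum (fun n => ‖x n‖ ^ 2) (‖x‖ ^ 2) := by
  simpa using lp.hasSum_norm (p := 2) (by norm_num) x

def shf (x : ℕ → F) : ℕ → F
  | 0 => 0
  | n + 1 => x n

noncomputable def S0 : H F →ₗᵢ[ℂ] H F where
  toFun x := ⟨shf x, memℓp_gen (by
    simpa using (summable_nat_add_iff (f := fun n => ‖shf x n‖ ^ 2) 1).1 (n2 x).summable)⟩
  map_add' x y := lp.ext (funext fun n => by cases n <;> simp [shf])
  map_smul' c x := lp.ext (funext fun n => by cases n <;> simp [shf])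
  norm_map' x := by
    rw [← sq_eq_sq₀ (norm_nonneg _) (norm_nonneg _)]
    refine (n2 _).unique ((hasSum_nat_add_iff' 1).1 ?_)
    simpa [shf] using n2 x

lemma S_single (j : ℕ) (v : F) : S0 (lp.single 2 j v : H F) = lp.single 2 (j + 1) v := lp.ext (funext fun n => by
  change shf (lp.single 2 j v : H F) n = _
  cases n <;> simp [shf, Pi.single_apply])

lemma Sp_single (k j : ℕ) (v : F) : (S0.toLinearMap ^ k) (lp.single 2 j v : H F) = lp.single 2 (j + k) v := by
  induction k with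
  | zero => rfl
  | succ k ih => rw [pow_succ', Module.End.mul_apply, ih]; exact S_single _ _

lemma toep {X : H F →L[ℂ] H F} {c : ℤ → F →L[ℂ] F} (hX : ∀ (i j : ℕ) (v : F), X (lp.single 2 j v) i = c (i - j) v)
    (h : H F) : ‖X (S0 h)‖ ^ 2 = ‖X (S0 h) 0‖ ^ 2 + ‖X h‖ ^ 2 := by
  have e : ∀ i, X (S0 h) (i + 1) = X h i := fun i => by
    have : lp.evalCLM ℂ (fun _ : ℕ => F) 2 (i + 1) ∘L X ∘L S0.toContinuousLinearMap =
        lp.evalCLM ℂ (fun _ : ℕ => F) 2 i ∘L X := lp.ext_continuousLinearMap (by norm_num) fun j => by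
      ext v
      change X (S0 (lp.single 2 j v)) (i + 1) = X (lp.single 2 j v) i
      rw [S_single, hX, hX]; congr 2; push_cast; ring
    exact congrArg (· h) this
  have h1 := (hasSum_nat_add_iff' 1).2 (n2 (X (S0 h)))
  simp only [e, Finset.range_one, Finset.sum_singleton] at h1
  linarith [h1.unique (n2 _)]

variable [FiniteDimensional ℂ F] [CompleteSpace F]

omit [FiniteDimensional ℂ F] in
lemma fc_star (Φ : C → F →L[ℂ] F) (m : ℤ) : fourierCoeff (fun t => star (Φ t)) m = star (fourierCoeff Φ (-m)) := by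
  unfold fourierCoeff
  have := (starL' ℝ : (F →L[ℂ] F) ≃L[ℝ] (F →L[ℂ] F)).integral_comp_comm (μ := haarAddCircle)
    fun t : C => fourier (- -m) t • Φ t
  simp only [starL'_apply] at this
  rw [← this]
  refine integral_congr_ae (Eventually.of_forall fun t => ?_)
  simp only [star_smul, neg_neg, fourier_neg]; rfl

omit [FiniteDimensional ℂ F] [CompleteSpace F] in
lemma bp_prop (l : List (ℂ × F)) (hp : ∀ p ∈ l, ‖p.1‖ < 1 ∧ ‖p.2‖ = 1) :
    Continuous (fun t : C => (l.map fun p => fac p (fourier 1 t)).prod) ∧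
      ∀ (t : C) w, ‖(l.map fun p => fac p (fourier 1 t)).prod w‖ = ‖w‖ := by
  induction l with
  | nil => exact ⟨continuous_const, fun _ _ => rfl⟩
  | cons p l ih =>
    obtain ⟨i1, i2⟩ := ih fun q hq => hp q (List.mem_cons_of_mem _ hq)
    obtain ⟨p1, p2⟩ := hp p List.mem_cons_self
    simp only [List.map_cons, List.prod_cons]
    refine ⟨(((bl_cont p1).smul continuous_const).add continuous_const).mul i1, fun t w => ?_⟩
    rw [ContinuousLinearMap.mul_apply, ← i2 t w]
    generalize (l.map fun p => fac p (fourier 1 t)).prod w = w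
    have := nrm p2 w (bl p.1 (fourier 1 t) * ⟪p.2, w⟫_ℂ)
    rw [norm_mul, bl_norm p1 (nf 1 t), one_mul, sub_add_cancel, sq_eq_sq₀ (norm_nonneg _) (norm_nonneg _)] at this
    rw [← this]
    congr 1
    simp [fac, smul_smul, add_comm]

omit [CompleteSpace F] in
lemma bp_det (ν : F →L[ℂ] F) (l : List (ℂ × F)) (hp : ∀ p ∈ l, ‖p.2‖ = 1) (z : ℂ) :
    (BP ν l z).det = ν.det * (l.map fun p => bl p.1 z).prod := by
  have m : ∀ A B : F →L[ℂ] F, (A * B).det = A.det * B.det := fun A B => map_mul LinearMap.det A.toLinearMap B.toLinearMap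
  rw [BP, m]
  congr 1
  induction l with
  | nil => exact map_one (LinearMap.det (M := F) (A := ℂ))
  | cons p l ih =>
    simp only [List.map_cons, List.prod_cons]
    rw [m, ih fun q hq => hp q (List.mem_cons_of_mem _ hq)]
    congr 1
    have : (fac p z).toLinearMap = LinearMap.transvection ((bl p.1 z - 1) • (innerSL ℂ p.2).toLinearMap) p.2 := by
      ext w
      simp [fac, LinearMap.transvection.apply, smul_smul, sub_mul, sub_smul]; abel
    rw [ContinuousLinearMap.det, this, LinearMap.transvection.det]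
    simp [hp p List.mem_cons_self]

theorem main {Φ : C → F →L[ℂ] F} (hΦ : MemLp Φ ⊤ haarAddCircle) {T : H F →L[ℂ] H F}
    (hT : ∀ (i j : ℕ) (v : F), T (lp.single 2 j v) i = fourierCoeff Φ (i - j) v)
    (hD : (adjoint T * T - T * adjoint T).IsPositive) (hf : FiniteDimensional ℂ (adjoint T * T - T * adjoint T).range) :
    ∃ ν ∈ unitary (F →L[ℂ] F), ∃ l : List (ℂ × F), l.length = finrank ℂ (adjoint T * T - T * adjoint T).range ∧
      (∀ p ∈ l, ‖p.1‖ < 1 ∧ ‖p.2‖ = 1) ∧ (∀ t : C, ‖BP ν l (fourier 1 t)‖ ≤ 1) ∧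
      MemLp (fun t : C => BP ν l (fourier 1 t)) ⊤ haarAddCircle ∧
      (∀ m < 0, fourierCoeff (fun t : C => BP ν l (fourier 1 t)) m = 0) ∧
      MemLp (fun t : C => Φ t - BP ν l (fourier 1 t) * star (Φ t)) ⊤ haarAddCircle ∧
      ∀ m < 0, fourierCoeff (fun t : C => Φ t - BP ν l (fourier 1 t) * star (Φ t)) m = 0 := by
  obtain ⟨R, sa, nR, fR, eR⟩ := root hD hf
  have hT' : ∀ (i j : ℕ) (v : F), adjoint T (lp.single 2 j v) i = star (fourierCoeff Φ (-(i - j))) v := fun i j v =>
    ext_inner_left ℂ fun w => by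
      rw [← lp.inner_single_left (G := fun _ : ℕ => F) i w, adjoint_inner_right, lp.inner_single_right, hT, star_eq_adjoint, adjoint_inner_right,
        neg_sub]
  have nR' : ∀ h, ‖R h‖ ^ 2 = ‖T h‖ ^ 2 - ‖adjoint T h‖ ^ 2 := fun h => by
    rw [nR]
    change (⟪h, adjoint T (T h) - T (adjoint T h)⟫_ℂ).re = _
    rw [inner_sub_right, adjoint_inner_right, ← adjoint_inner_left T (adjoint T h), inner_self_eq_norm_sq_to_K, inner_self_eq_norm_sq_to_K]
    norm_cast
  obtain ⟨ν, hν, l, hl, hp, hc⟩ := core S0.toLinearMap (Set.range fun p : ℕ × F => (lp.single 2 p.1 p.2 : H F))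
    ((lp.evalCLM ℂ (fun _ : ℕ => F) 2 0 ∘L T).toLinearMap ∘ₗ S0.toLinearMap) _ R.range eR R.toLinearMap.rangeRestrict
    ((lp.evalCLM ℂ (fun _ : ℕ => F) 2 0 ∘L adjoint T).toLinearMap ∘ₗ S0.toLinearMap) (fun h => by
      change ‖R h‖ ^ 2 + ‖T (S0 h) 0‖ ^ 2 = ‖R (S0 h)‖ ^ 2 + ‖adjoint T (S0 h) 0‖ ^ 2
      rw [nR', nR', toep hT h, toep (c := fun m => star (fourierCoeff Φ (-m))) hT' h]; ring)
    (fun x hx => by
      obtain ⟨_, y, rfl⟩ := x
      have h1 : R (R y) = 0 := lp.ext (funext fun j => ext_inner_right ℂ fun v => by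
        have : ⟪R y, R (lp.single 2 j v)⟫_ℂ = 0 := hx _ ⟨(j, v), rfl⟩
        rw [← sa, lp.inner_single_right] at this
        simpa using this)
      refine Subtype.ext ((inner_self_eq_zero (𝕜 := ℂ)).1 ?_)
      change ⟪R y, R y⟫_ℂ = 0
      rw [sa, h1, inner_zero_right])
    (by
      rintro x _ ⟨⟨j, v⟩, rfl⟩
      have e : ∀ k, ⟪x, R.toLinearMap.rangeRestrict ((S0.toLinearMap ^ k) (lp.single 2 j v : H F))⟫_ℂ =
          ⟪R x (j + k), v⟫_ℂ := fun k => by
        rw [Sp_single, ← lp.inner_single_right, sa]; rfl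
      simp only [e]
      have t : Tendsto (fun k => ‖R x k‖) atTop (𝓝 0) := by
        simpa using (n2 (R x)).summable.tendsto_atTop_zero.sqrt
      simpa using ((tendsto_zero_iff_norm_tendsto_zero.2 t).comp
        (tendsto_atTop_mono (fun k => Nat.le_add_left k j) tendsto_id)).inner (𝕜 := ℂ) (tendsto_const_nhds (x := v)))
  obtain ⟨b1, b2⟩ := bp_prop l hp
  have cB : Continuous fun t : C => BP ν l (fourier 1 t) := continuous_const.mul b1
  have nB : ∀ t : C, ‖BP ν l (fourier 1 t)‖ ≤ 1 := fun t => opNorm_le_bound _ zero_le_one fun w => by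
    rw [BP, ContinuousLinearMap.mul_apply, norm_map_of_mem_unitary hν, b2, one_mul]
  have mB := memLp_top_of_bound (μ := haarAddCircle) cB.aestronglyMeasurable 1 (Eventually.of_forall nB)
  have mS : MemLp (fun t => star (Φ t)) ⊤ haarAddCircle :=
    hΦ.of_le (continuous_star.comp_aestronglyMeasurable hΦ.1) (Eventually.of_forall fun t => (norm_star _).le)
  have mP : MemLp (fun t => BP ν l (fourier 1 t) * star (Φ t)) ⊤ haarAddCircle :=
    mS.of_le (mB.1.mul mS.1) (Eventually.of_forall fun t =>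
      (norm_mul_le _ _).trans (mul_le_of_le_one_left (norm_nonneg _) (nB t)))
  have ap : ∀ {K : C → F →L[ℂ] F}, MemLp K ⊤ haarAddCircle → ∀ v m,
      fourierCoeff (fun t => K t v) m = fourierCoeff K m v := fun hK v =>
    fc_clm (ContinuousLinearMap.apply ℂ F v) (hK.integrable le_top)
  refine ⟨ν, hν, l, hl, hp, nB, mB, fun m hm => ?_, hΦ.sub mP, fun m hm => ?_⟩
  · obtain ⟨i, rfl⟩ : ∃ i : ℕ, m = -(i + 1) := ⟨(-m - 1).toNat, by omega⟩
    ext v
    rw [← ap mB, ← hc _ ⟨(0, 0), rfl⟩ (fun _ => v) (integrable_const _) (fun i => ?_) i]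
    · simp
    · have := fc_clm (toSpanSingleton ℂ v) (g := fourier 0) ((integrable_const (1 : ℂ)).congr
        (Eventually.of_forall fun t => by simp)) (-(i + 1))
      rw [fourierCoeff_fourier, Pi.single_eq_of_ne (by omega)] at this
      simpa using this.symm
  · obtain ⟨i, rfl⟩ : ∃ i : ℕ, m = -(i + 1) := ⟨(-m - 1).toNat, by omega⟩
    ext v
    rw [fc_sub (hΦ.integrable le_top) (mP.integrable le_top), ContinuousLinearMap.sub_apply, ← ap mP]
    have := hc _ ⟨(0, v), rfl⟩ (fun t => star (Φ t) v)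
      ((ContinuousLinearMap.apply ℂ F v).integrable_comp (mS.integrable le_top)) (fun i => by
        rw [ap mS, fc_star, Sp_single]
        change adjoint T (S0 _) 0 = _
        rw [S_single, hT']; congr 3; push_cast; ring) i
    rw [Sp_single] at this
    change T (S0 _) 0 = _ at this
    rw [S_single, hT, show ((0 : ℕ) : ℤ) - (0 + i + 1 : ℕ) = -(i + 1) by push_cast; ring] at this
    rw [this]
    exact sub_self _

end Pool.Agent.H.MP_a5aa7c_an
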